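import Pool.Agent.Helper41.SQC.Goals

/-!
MP_bb32d1_al, stage C, packet CLM: the third closure.
-/

set_option autoImplicit false
set_option linter.unusedSectionVars false

namespace Pool.Agent.Helper35.SQC

noncomputable section

open Matrix Pool.Agent.Helper19.SQ Pool.Agent.Helper34.SQ Pool.Agent.Helper41.SQ
  Pool.Agent.Helper4.SQ Pool.Agent.Helper41.SQC

section

variable {R : Type} [Ring R] [Algebra ℂ R]

theorem comm_rvA (q : ℂ) (c : R) (F : ℕ → R) (h : ∀ k, Commute c (F k)) (d i : ℕ) :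
    Commute c (rvA q F d i) := by
  induction d generalizing i with
  | zero => exact h i
  | succ d ih =>
    unfold rvA
    exact ((h i).mul_right (ih (i + 1))).sub_right
      (((ih (i + 1)).mul_right (h i)).smul_right q⁻¹)

theorem comm_mon (N : ℕ) (q : ℂ) (c : R) (F : ℕ → R) (h : ∀ k, Commute c (F k))
    (b : ℕ → ℕ → ℕ) : Commute c (mon N q F b) := by
  unfold mon
  refine Commute.list_prod_right _ _ fun x hx => ?_
  obtain ⟨i, _, rfl⟩ := List.mem_map.1 hx
  unfold rowM
  refine Commute.list_prod_right _ _ fun y hy => ?_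
  obtain ⟨d, _, rfl⟩ := List.mem_map.1 hy
  exact (comm_rvA q c F h _ i).pow_right _

variable {R' : Type} [Ring R'] [Algebra ℂ R']

theorem Yent_map' (q : ℂ) (f : R →ₐ[ℂ] R') (F K : ℕ → R) (a b : ℕ) :
    f (Yent q F K a b) = Yent q (fun k => f (F k)) (fun k => f (K k)) a b := by
  unfold Yent
  split_ifs
  · rfl
  · rw [map_smul, map_mul, rvo_map]
  · exact map_zero f

theorem Lent_map' (q : ℂ) (f : R →ₐ[ℂ] R') (E K : ℕ → R) (a b : ℕ) :
    f (Lent q E K a b) = Lent q (fun k => f (E k)) (fun k => f (K k)) a b := by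
  unfold Lent
  split_ifs
  · rfl
  · rw [map_smul, map_mul, rv_map]
  · exact map_zero f

theorem c1g_map' (N : ℕ) (q : ℂ) (f : R →ₐ[ℂ] R') (κ E F K : ℕ → R) :
    f (c1g N q κ E F K)
      = c1g N q (fun k => f (κ k)) (fun k => f (E k)) (fun k => f (F k)) (fun k => f (K k)) := by
  unfold c1g
  rw [map_sum]
  refine Finset.sum_congr rfl fun a _ => ?_
  rw [map_sum]
  refine Finset.sum_congr rfl fun b _ => ?_
  rw [map_smul, map_mul, map_mul, map_mul, Yent_map', Lent_map']

end

section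

variable {N l : ℕ} {q : ℂ} {B : Type} [CommRing B] [Algebra ℂ B] {ι : Type} [Fintype ι]
  [DecidableEq ι]

theorem rvA_kill (q : ℂ) (E : ℕ → Matrix ι ι B) (e : ι → B) (h : ∀ k, E k *ᵥ e = 0) (d i : ℕ) :
    rvA q E d i *ᵥ e = 0 := by
  induction d generalizing i with
  | zero => exact h i
  | succ d ih =>
    unfold rvA
    rw [Matrix.sub_mulVec, ← Matrix.mulVec_mulVec, ih, Matrix.mulVec_zero, Matrix.smul_mulVec,
      ← Matrix.mulVec_mulVec, h, Matrix.mulVec_zero, smul_zero, sub_zero]

theorem alg_mulVec (b : B) (v : ι → B) : algebraMap B (Matrix ι ι B) b *ᵥ v = b • v := by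
  rw [Algebra.algebraMap_eq_smul_one, Matrix.smul_mulVec, Matrix.one_mulVec]

theorem c1g_vec (N : ℕ) (q : ℂ) (κ : ℕ → B) (E F K : ℕ → Matrix ι ι B) (e : ι → B)
    (w : ℕ → B) (hE : ∀ k, E k *ᵥ e = 0) (hK : ∀ j : Fin (N + 1), K j *ᵥ e = w j • e) :
    c1g N q (fun j => algebraMap B (Matrix ι ι B) (κ j)) E F K *ᵥ e
      = (∑ a : Fin (N + 1), algebraMap ℂ B (q⁻¹ ^ (2 * (a : ℕ))) * (κ a ^ 2 * w a ^ 2)) • e := by
  unfold c1g
  rw [Matrix.sum_mulVec, Finset.sum_smul]
  refine Finset.sum_congr rfl fun a _ => ?_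
  rw [Matrix.sum_mulVec, Finset.sum_eq_single a]
  · rw [Matrix.smul_mulVec]
    have h1 : Yent q F K a a = K a := by unfold Yent; rw [if_pos rfl]
    have h2 : Lent q E K a a = K a := by unfold Lent; rw [if_pos rfl]
    rw [h1, h2]
    simp only [← Matrix.mulVec_mulVec, hK, Matrix.mulVec_smul, alg_mulVec]
    rw [algebra_compatible_smul B]
    simp only [smul_smul]
    congr 1
    ring
  · intro b _ hba
    have hz : Lent q E K b a *ᵥ e = 0 := by
      unfold Lent
      rw [if_neg fun h => hba (Fin.ext h)]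
      split_ifs
      · rw [Matrix.smul_mulVec, ← Matrix.mulVec_mulVec, hK, Matrix.mulVec_smul]
        have : rv q E a b *ᵥ e = 0 := rvA_kill q E e hE _ _
        rw [this, smul_zero, smul_zero]
      · exact Matrix.zero_mulVec _
    rw [Matrix.smul_mulVec]
    simp only [← Matrix.mulVec_mulVec, hz, Matrix.mulVec_zero, smul_zero]
  · intro h
    exact absurd (Finset.mem_univ a) h

end

/-- **CLM** -/
theorem c_clm (hC : S_C1F) (hZ : S_ZREP) : S_CLM := by
  intro N l _ q D hP V B _ _ p a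
  funext x
  obtain ⟨hG, -, hE, hK, hmon⟩ := hZ N l q D hP V B p.t p.t' p.tt (lamOf x)
  set lam := lamOf x with hlam
  have hql : q ^ l = 1 := hP.prim.pow_eq_one
  have hl3 := hP.h3
  have hq0 : q ≠ 0 := by
    intro h
    rw [h, zero_pow (by omega)] at hql
    exact zero_ne_one hql
  let M := Matrix (EX N l) (EX N l) B
  let f : FB B →ₐ[ℂ] M := (rep V p lam).restrictScalars ℂ
  have hrep : ∀ y, f y = rep V p lam y := fun y => rfl
  have hc : rep V p lam (cB N q p) = c1g N q (fun j => algebraMap B M (p.κ j))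
      (zE V p.t p.t' lam) (zF N l q B) (zK q B lam) := by
    rw [← hrep]
    unfold cB
    rw [c1g_map']
    congr 1
    · funext j
      exact (rep V p lam).commutes (p.κ j)
    · funext k
      exact FreeAlgebra.lift_ι_apply _ _
    · funext k
      exact FreeAlgebra.lift_ι_apply _ _
    · funext k
      exact FreeAlgebra.lift_ι_apply _ _
  set c := c1g N q (fun j => algebraMap B M (p.κ j))
      (zE V p.t p.t' lam) (zF N l q B) (zK q B lam) with hcdef
  have hcomm : ∀ k, c * zF N l q B k = zF N l q B k * c := by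
    refine hC M N l q (fun j => algebraMap B M (p.κ j)) (fun j => algebraMap B M (p.κi j))
      _ _ _ hP (fun i y => Algebra.commutes _ _) (fun i y => Algebra.commutes _ _)
      (fun i => by rw [← map_mul, p.κκ, map_one]) ?_
    have h1 : (fun k => algebraMap B M (p.κ k) * algebraMap B M (p.κi (k + 1)))
        = fun k => algebraMap B M (p.t k) := by
      funext k
      rw [← map_mul]
      rfl
    have h2 : (fun k => algebraMap B M (p.κi k) * algebraMap B M (p.κ (k + 1)))
        = fun k => algebraMap B M (p.t' k) := by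
      funext k
      rw [← map_mul]
      rfl
    rw [h1, h2]
    exact hG
  set γ : B := ∑ j : Fin (N + 1), algebraMap ℂ B (q⁻¹ ^ (2 * (j : ℕ))) *
      (p.κ j ^ 2 * (algebraMap ℂ B (qz q (lx lam j))) ^ 2) with hγ
  have hlx : ∀ j : Fin (N + 1), lx lam j = lam j := fun j => by
    unfold lx
    rw [dif_pos j.2]
  have hce : c *ᵥ Pi.single (zX N l) 1 = γ • (Pi.single (zX N l) 1 : EX N l → B) := by
    refine c1g_vec N q p.κ _ _ _ _ (fun j => algebraMap ℂ B (qz q (lx lam j))) hE ?_
    intro j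
    rw [hK j]
    simp only [hlx]
  have hcs : ∀ b : EX N l, c *ᵥ Pi.single b 1 = γ • (Pi.single b 1 : EX N l → B) := by
    intro b
    rw [← hmon b, Matrix.mulVec_mulVec, (comm_mon N q c (zF N l q B) hcomm b.1).eq,
      ← Matrix.mulVec_mulVec, hce, Matrix.mulVec_smul]
  have hcc : c = γ • (1 : M) := by
    refine Matrix.ext fun i b => ?_
    have h := congrFun (hcs b) i
    rw [Matrix.mulVec_single_one] at h
    have h2 : c i b = (γ • (Pi.single b 1 : EX N l → B)) i := h
    rw [h2, Pi.smul_apply, Matrix.smul_apply, Matrix.one_apply, Pi.single_apply]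
  have hγ2 : γ = ∑ j : Fin (N + 1), algebraMap ℂ B (qz q (2 * x j)) * p.κ j ^ 2 := by
    rw [hγ]
    refine Finset.sum_congr rfl fun j _ => ?_
    have h1 : qz q (lx lam j) = qz q (x j) * q ^ (j : ℕ) := by
      rw [hlx, hlam]
      unfold lamOf
      rw [qz_add hql, qz_nat hql]
    have h2 : qz q (2 * x j) = qz q (x j) ^ 2 := by
      rw [two_mul, qz_add hql, sq]
    have h3 : q⁻¹ ^ (2 * (j : ℕ)) * (qz q (lx lam j)) ^ 2 = qz q (2 * x j) := by
      rw [h1, h2, mul_pow, ← pow_mul, mul_comm (j : ℕ) 2, inv_pow, mul_left_comm,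
        inv_mul_cancel₀ (pow_ne_zero _ hq0), mul_one]
    rw [← h3, map_mul, map_pow (algebraMap ℂ B) (qz q (lx lam j)) 2]
    ring
  rw [TH_apply, map_mul, hc, hcc, smul_mul_assoc, one_mul, smul_mul_assoc, Matrix.trace_smul, hγ2]
  rfl

end

end Pool.Agent.Helper35.SQC
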