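import Pool.Agent.Helper41.SQC.Goals

/-!
MP_bb32d1_al, stage C, packet THV: the twist on `V (x) Z(lam)` and `V* (x) Z(lam)`.
-/

set_option autoImplicit false
set_option linter.unusedSectionVars false

namespace Pool.Agent.Helper35.SQC

noncomputable section

open Matrix Pool.Agent.Helper19.SQ Pool.Agent.Helper34.SQ Pool.Agent.Helper41.SQ
  Pool.Agent.Helper4.SQ Pool.Agent.Helper41.SQC

theorem thE_step {N l : ℕ} {B : Type} [CommRing B] (p : Pr B) {k : ℕ} (hk : k < N)
    (b c : EX N l)
    (h : ∀ m, m < N → cn N b.1 m = cn N c.1 m + (if m = k then 1 else 0)) :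
    thE p b = (p.si k * p.s (k + 1)) * thE p c := by
  unfold thE
  have h1 : ∀ m ∈ Finset.range N, (p.si m * p.s (m + 1)) ^ cn N b.1 m
      = (if m = k then (p.si k * p.s (k + 1)) else 1) * (p.si m * p.s (m + 1)) ^ cn N c.1 m := by
    intro m hm
    rw [h m (Finset.mem_range.1 hm)]
    by_cases hmk : m = k
    · subst hmk
      rw [if_pos rfl, if_pos rfl, pow_succ, mul_comm]
    · rw [if_neg hmk, if_neg hmk, add_zero, one_mul]
  rw [Finset.prod_congr rfl h1, Finset.prod_mul_distrib, Finset.prod_ite_eq', if_pos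
    (Finset.mem_range.2 hk)]

theorem thE_zero {N l : ℕ} [NeZero l] {B : Type} [CommRing B] (p : Pr B) :
    thE p (zX N l) = 1 := by
  unfold thE
  refine Finset.prod_eq_one fun m _ => ?_
  have : cn N (zX N l).1 m = 0 := by
    unfold cn zX
    simp
  rw [this, pow_zero]

section Gen

variable {N : ℕ} {B : Type} [CommRing B] {M : Type} [Ring M] [Algebra B M]

theorem word (Θ : M) (X : ℕ → M) (u : ℕ → B) (h : ∀ k, k < N → Θ * X k = u k • (X k * Θ))
    (w : List ℕ) (hw : ∀ k ∈ w, k < N) :
    Θ * (w.map X).prod = (∏ m ∈ Finset.range N, u m ^ w.count m) • ((w.map X).prod * Θ) := by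
  induction w with
  | nil => simp
  | cons k w ih =>
    have hk : k < N := hw k (List.mem_cons_self ..)
    have ih' := ih fun m hm => hw m (List.mem_cons_of_mem _ hm)
    rw [List.map_cons, List.prod_cons, ← mul_assoc, h k hk, smul_mul_assoc, mul_assoc, ih',
      mul_smul_comm, smul_smul, ← mul_assoc]
    congr 1
    have h1 : ∀ m ∈ Finset.range N, u m ^ (k :: w).count m
        = (if m = k then u k else 1) * u m ^ w.count m := by
      intro m _
      rw [List.count_cons]
      by_cases hmk : m = k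
      · subst hmk
        rw [if_pos rfl, beq_self_eq_true, if_pos rfl, pow_succ, mul_comm]
      · have : (k == m) = false := by
          rw [beq_eq_false_iff_ne]
          exact fun h => hmk h.symm
        rw [if_neg hmk, this, one_mul]
        simp
    rw [Finset.prod_congr rfl h1, Finset.prod_mul_distrib, Finset.prod_ite_eq', if_pos
      (Finset.mem_range.2 hk)]

end Gen

section

variable {N l : ℕ} {q : ℂ} {B : Type} [CommRing B] [Algebra ℂ B]

theorem mono (hM : S_MOW) (p : Pr B) {ι : Type} [Fintype ι] [DecidableEq ι]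
    (Θ : Matrix ι ι B) (X : ℕ → Matrix ι ι B)
    (h : ∀ k, k < N → Θ * X k = (p.si k * p.s (k + 1)) • (X k * Θ)) (a : EX N l) :
    Θ * mon N q X a.1 = thE p a • (mon N q X a.1 * Θ) := by
  have h1 := hM (Matrix ι ι B) N q X a.1 fun i j hij => (a.2 i j).2 hij
  let S : Submodule ℂ (Matrix ι ι B) :=
    { carrier := {x | Θ * x = thE p a • (x * Θ)}
      add_mem' := by
        intro x y hx hy
        rw [Set.mem_ofPred_eq] at hx hy ⊢
        rw [mul_add, hx, hy, add_mul, smul_add]
      zero_mem' := by
        rw [Set.mem_ofPred_eq, mul_zero, zero_mul, smul_zero]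
      smul_mem' := by
        intro c x hx
        rw [Set.mem_ofPred_eq] at hx ⊢
        rw [mul_smul_comm, hx, smul_mul_assoc, smul_comm] }
  have h2 : Submodule.span ℂ {x | ∃ w : List ℕ, (∀ k ∈ w, k < N) ∧
      (∀ m, m < N → w.count m = cn N a.1 m) ∧ x = (w.map X).prod} ≤ S := by
    rw [Submodule.span_le]
    rintro x ⟨w, hw, hc, rfl⟩
    change Θ * (w.map X).prod = thE p a • ((w.map X).prod * Θ)
    rw [word Θ X (fun k => p.si k * p.s (k + 1)) h w hw]
    congr 1
    unfold thE
    exact Finset.prod_congr rfl fun m hm => by rw [hc m (Finset.mem_range.1 hm)]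
  exact h2 h1

/-- being diagonal -/
def Dg (M : Matrix (EX N l) (EX N l) B) : Prop := ∃ d, M = Matrix.diagonal d

theorem Dg.mul {M M' : Matrix (EX N l) (EX N l) B} (h : Dg M) (h' : Dg M') : Dg (M * M') := by
  obtain ⟨d, rfl⟩ := h
  obtain ⟨d', rfl⟩ := h'
  exact ⟨_, Matrix.diagonal_mul_diagonal _ _⟩

theorem Dg.one : Dg (1 : Matrix (EX N l) (EX N l) B) := ⟨1, Matrix.diagonal_one.symm⟩

theorem Dg.pow {M : Matrix (EX N l) (EX N l) B} (h : Dg M) (n : ℕ) : Dg (M ^ n) := by
  induction n with
  | zero => rw [pow_zero]; exact Dg.one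
  | succ n ih => rw [pow_succ]; exact ih.mul h

theorem Dg.alg (b : B) : Dg (algebraMap B (Matrix (EX N l) (EX N l) B) b) :=
  ⟨_, Matrix.algebraMap_eq_diagonal b⟩

theorem Dg.zK (lam : Fin (N + 1) → ZMod l) (j : ℕ) : Dg (zK q B lam j) := by
  unfold Pool.Agent.Helper41.SQC.zK
  split
  · exact ⟨_, rfl⟩
  · exact Dg.one

theorem Dg.ne {M : Matrix (EX N l) (EX N l) B} (h : Dg M) {b c : EX N l} (hbc : b ≠ c) :
    M b c = 0 := by
  obtain ⟨d, rfl⟩ := h
  exact Matrix.diagonal_apply_ne _ hbc

theorem zF_step (hF : S_FM) (p : Pr B) {k : ℕ} (b c : EX N l) :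
    thE p b * zF N l q B k b c = (p.si k * p.s (k + 1)) * (zF N l q B k b c * thE p c) := by
  have h0 : zF N l q B k b c = algebraMap ℂ B (PhM N l q k b c) := rfl
  by_cases h : PhM N l q k b c = 0
  · rw [h0, h, map_zero, mul_zero, zero_mul, mul_zero]
  · obtain ⟨hk, h2⟩ := hF.2 N l q k c b h
    rw [thE_step p hk b c h2]
    ring

theorem blk (hF : S_FM) (p : Pr B) (d : Fin (N + 1) → B) (X : Mat N (Matrix (EX N l) (EX N l) B))
    {k : ℕ} (M : Fin (N + 1) → Fin (N + 1) → Matrix (EX N l) (EX N l) B)
    (hM : ∀ i j, Dg (M i j))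
    (hX : ∀ i j, X i j = (if i = j then zF N l q B k else 0) + M i j)
    (hd : ∀ i j, M i j = 0 ∨ d i = (p.si k * p.s (k + 1)) * d j) :
    (Matrix.diagonal fun z : Fin (N + 1) × EX N l => d z.1 * thE p z.2)
        * Matrix.comp _ _ _ _ _ X
      = (p.si k * p.s (k + 1)) • (Matrix.comp _ _ _ _ _ X
        * Matrix.diagonal fun z : Fin (N + 1) × EX N l => d z.1 * thE p z.2) := by
  refine Matrix.ext fun x y => ?_
  obtain ⟨i, b⟩ := x
  obtain ⟨j, c⟩ := y
  rw [Matrix.diagonal_mul, Matrix.smul_apply, Matrix.mul_diagonal, Matrix.comp_apply, hX,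
    Matrix.add_apply, smul_eq_mul]
  have h1 : d i * thE p b * (if i = j then zF N l q B k else 0) b c
      = (p.si k * p.s (k + 1)) * ((if i = j then zF N l q B k else 0) b c * (d j * thE p c)) := by
    by_cases hij : i = j
    · subst hij
      rw [if_pos rfl]
      have := zF_step (N := N) (l := l) (q := q) hF p (k := k) b c
      linear_combination d i * this
    · rw [if_neg hij, Matrix.zero_apply]
      ring
  have h2 : d i * thE p b * M i j b c
      = (p.si k * p.s (k + 1)) * (M i j b c * (d j * thE p c)) := by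
    rcases hd i j with h | h
    · rw [h, Matrix.zero_apply]
      ring
    · by_cases hbc : b = c
      · subst hbc
        rw [h]
        ring
      · rw [(hM i j).ne hbc]
        ring
  linear_combination h1 + h2

end

/-- **THV** -/
theorem c_thv (hF : S_FM) (hM : S_MOW) : S_THV := by
  intro N l _ q hP B _ _ p t' lam
  have hfin : ∀ (d : Fin (N + 1) → B) (X : ℕ → Matrix (Fin (N + 1) × EX N l)
      (Fin (N + 1) × EX N l) B),
      (∀ k, k < N → (Matrix.diagonal fun z : Fin (N + 1) × EX N l => d z.1 * thE p z.2) * X k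
        = (p.si k * p.s (k + 1)) • (X k
          * Matrix.diagonal fun z : Fin (N + 1) × EX N l => d z.1 * thE p z.2)) →
      (Matrix.diagonal fun z : Fin (N + 1) × EX N l => d z.1 * thE p z.2)
        * (Matrix.of fun x y => mon N q X y.2.1 x (y.1, zX N l))
      = (Matrix.of fun x y => mon N q X y.2.1 x (y.1, zX N l))
        * Matrix.diagonal (fun z : Fin (N + 1) × EX N l => d z.1 * thE p z.2) := by
    intro d X hX
    refine Matrix.ext fun x y => ?_
    rw [Matrix.diagonal_mul, Matrix.mul_diagonal, Matrix.of_apply]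
    have h1 := congrFun (congrFun (mono (q := q) hM p _ X hX y.2) x) (y.1, zX N l)
    rw [Matrix.diagonal_mul, Matrix.smul_apply, Matrix.mul_diagonal, smul_eq_mul] at h1
    simp only [thE_zero, mul_one] at h1
    linear_combination h1
  constructor
  · refine hfin (fun j => p.s j) (vzF q t' lam) fun k hk => ?_
    unfold vzF
    refine blk hF p (fun j => p.s j) _ (fun i j => if (i : ℕ) = k + 1 ∧ (j : ℕ) = k then
      algebraMap B (Matrix (EX N l) (EX N l) B) (t' k)
        * (zK q B lam (k + 1) * ki l (zK q B lam) k) else 0) ?_ (fun i j => rfl) ?_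
    · intro i j
      split
      · exact (Dg.alg _).mul ((Dg.zK lam _).mul ((Dg.zK lam _).pow _))
      · exact ⟨0, by simp⟩
    · intro i j
      by_cases h : (i : ℕ) = k + 1 ∧ (j : ℕ) = k
      · right
        obtain ⟨hi, hj⟩ := h
        have := p.ss k
        simp only [hi, hj]
        linear_combination -(p.s (k + 1)) * this
      · left
        exact if_neg h
  · refine hfin (fun j => p.si j) (wzF q t' lam) fun k hk => ?_
    unfold wzF
    refine blk hF p (fun j => p.si j) _ (fun i j => if (i : ℕ) = k ∧ (j : ℕ) = k + 1 then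
      (-q⁻¹) • (algebraMap B (Matrix (EX N l) (EX N l) B) (t' k)
        * (zK q B lam (k + 1) * ki l (zK q B lam) k)) else 0) ?_ (fun i j => rfl) ?_
    · intro i j
      split
      · obtain ⟨d, hd⟩ := (Dg.alg (N := N) (l := l) (t' k)).mul
          ((Dg.zK (q := q) (B := B) lam (k + 1)).mul ((Dg.zK (q := q) (B := B) lam k).pow (l - 1)))
        refine ⟨(-q⁻¹) • d, ?_⟩
        unfold ki
        rw [hd, Matrix.diagonal_smul]
      · exact ⟨0, by simp⟩
    · intro i j
      by_cases h : (i : ℕ) = k ∧ (j : ℕ) = k + 1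
      · right
        obtain ⟨hi, hj⟩ := h
        have := p.ss (k + 1)
        simp only [hi, hj]
        linear_combination -(p.si k) * this
      · left
        exact if_neg h

end

end Pool.Agent.Helper35.SQC
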